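import Pool.Agent.H342C.TT
import Pool.Agent.H492C.Defs

/-! ROOM CARDY, task H2. -/

namespace Pool.Agent.H342C

open Pool.Agent.H988R2.Perc hiding X
open Finset Polynomial Pool.Agent.H492C

theorem TT_hom (a b : ℕ) (ha : Odd a) (hb : Odd b) (P : ℂ[X])
    (hP : ∀ w, TT (List.replicate a 1) w (List.replicate b 1) = P.eval w) :
    P.reflect (a + b) = P ∧
    (∀ j, j % 3 = 1 → (Mp (List.replicate (a+b) 1) P).coeff j = 0) ∧
    P.coeff 0 ≠ 0 := by
  obtain ⟨n, hn⟩ : ∃ n, a + b = 2*n := (ha.add_odd hb).exists_two_nsmul.imp (by intro n h; simpa using h)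
  obtain ⟨T, hT, hd, hs, hne, h3⟩ := total a b n hn ha hb
  have hPT : P = T := by
    refine Polynomial.funext fun w => ?_
    rw [← hP w, hT w]
    unfold TT
    simp only [List.map_replicate, inv_one]
    ring
  subst hPT
  refine ⟨by rw [hn]; exact hs, ?_, ?_⟩
  · intro j hj
    have : Mp (List.replicate (a+b) 1) P = Pool.Agent.H136R2.Cardy.pp n P := by
      unfold Mp Pool.Agent.H136R2.Cardy.pp
      rw [List.map_replicate, List.prod_replicate, hn, inv_one, C_1, ← pow_two, ← pow_mul,
        show 2*(2*n) = 4*n by ring]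
      ring
    rw [this]
    exact h3 j hj
  · have h1 : P.coeff (2*n) = P.coeff 0 := by
      conv_lhs => rw [← hs, coeff_reflect, revAt_le le_rfl, Nat.sub_self]
    rw [← h1]
    exact hne

end Pool.Agent.H342C
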