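import Pool.Agent.H342C.TT
import Pool.Agent.H31C.Stubs

/-! ROOM CARDY, block S_T. -/

namespace Pool.Agent.H342C

open Pool.Agent.H988R2.Perc hiding X

theorem s_T : Pool.Agent.H31C.S_T := by
  intro a b ha hb
  have h := total_ne a b ha hb
  unfold Pool.Agent.H31C.TT Pool.Agent.H31C.inv Pool.Agent.H31C.on
  simp only [List.map_replicate, inv_one]
  exact h

end Pool.Agent.H342C
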