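import Pool.Agent.H988R2.Perc.T16
import Pool.Agent.H988R2.Perc.T25
import Pool.Agent.H136R2.Cardy.Defs

/-! ROOM CARDY, block T: the total `T(W) = Z (1^a W 1^b 0) Z (1^a 0) Z (1^b 0)`. -/

namespace Pool.Agent.H342C

open Pool.Agent.H988R2.Perc hiding X
open Pool.Agent.H988R2.Perc.T16 Finset

/-- matrix entries of the row with parameter `W` -/
noncomputable def rr (K : ℕ) (W : ℂ) (j : ℕ) : ℂ := W^(K + mu j) - W^(K - mu j)

theorem sum3 (m : ℕ) (h : m % 3 ≠ 0) : 1 + q^m + q^(2*m) = 0 := by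
  have hq := q_spec
  have hq3 := q_cube
  have hm : q^m = q^(m % 3) := by
    conv_lhs => rw [← Nat.div_add_mod m 3, pow_add, pow_mul, hq3, one_pow, one_mul]
  rw [mul_comm, pow_mul, hm]
  have h3 : m % 3 < 3 := Nat.mod_lt _ (by norm_num)
  interval_cases h' : m % 3
  · omega
  · linear_combination hq
  · linear_combination (q^2 - q + 1) * hq

theorem mu_mod (j : ℕ) : mu j % 3 ≠ 0 := by unfold mu; omega

theorem rr_sum (n : ℕ) (W : ℂ) (j : ℕ) (hj : mu j ≤ 3*n+2) :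
    rr (3*n+2) W j + q * rr (3*n+2) (q*W) j + q^2 * rr (3*n+2) (q^2*W) j = 0 := by
  unfold rr
  have e1 : 1 + q^(3*n+2 + mu j + 1) + q^(2*(3*n+2 + mu j + 1)) = 0 :=
    sum3 _ (by have := mu_mod j; omega)
  have e2 : 1 + q^(3*n+2 - mu j + 1) + q^(2*(3*n+2 - mu j + 1)) = 0 :=
    sum3 _ (by have := mu_mod j; omega)
  rw [mul_pow, mul_pow, mul_pow, mul_pow, ← pow_mul, ← pow_mul]
  have a1 : q^2 * q^(2*(3*n+2 + mu j)) = q^(2*(3*n+2 + mu j + 1)) := by ring
  have a2 : q^2 * q^(2*(3*n+2 - mu j)) = q^(2*(3*n+2 - mu j + 1)) := by ring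
  have a3 : q * q^(3*n+2 + mu j) = q^(3*n+2 + mu j + 1) := by ring
  have a4 : q * q^(3*n+2 - mu j) = q^(3*n+2 - mu j + 1) := by ring
  linear_combination W^(3*n+2+mu j) * e1 - W^(3*n+2-mu j) * e2 + W^(3*n+2+mu j) * a1
    - W^(3*n+2-mu j) * a2 + W^(3*n+2+mu j) * a3 - W^(3*n+2-mu j) * a4

/-- the list `W, y_0, …, y_{m-1}, 0` -/
noncomputable def lst {m : ℕ} (W : ℂ) (y : Fin m → ℂ) : List ℂ := W :: (List.ofFn y ++ [0])

theorem length_lst {m : ℕ} (W : ℂ) (y : Fin m → ℂ) : (lst W y).length = m + 2 := by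
  simp [lst]

theorem getD_lst {m : ℕ} (W : ℂ) (y : Fin m → ℂ) (i : Fin (m+1)) :
    (lst W y).getD i 0 = (Fin.cons W y : Fin (m+1) → ℂ) i := by
  refine Fin.cases ?_ (fun i => ?_) i
  · simp [lst]
  · rw [Fin.cons_succ, Fin.val_succ]
    unfold lst
    rw [List.getD_cons_succ, List.getD_eq_getElem _ _ (by simp),
      List.getElem_append_left (by simp)]
    simp

theorem getD_lst_last {m : ℕ} (W : ℂ) (y : Fin m → ℂ) : (lst W y).getD (m+1) 0 = 0 := by
  unfold lst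
  rw [List.getD_cons_succ, List.getD_eq_getElem _ _ (by simp), List.getElem_append_right (by simp)]
  simp

theorem det_pull (M N : ℕ) (hN : M ≤ N) (z : Fin M → ℂ) (hz : ∀ i, z i ≠ 0) :
    Matrix.det (Matrix.of fun i j : Fin M => (z i)^(N + ((j:ℕ)+1)) - (z i)^(N - ((j:ℕ)+1))) =
      (∏ i, (z i)^N) * ((∏ i, (z i - (z i)⁻¹)) *
        ∏ i : Fin M, ∏ j ∈ Ioi i, ((z j + (z j)⁻¹) - (z i + (z i)⁻¹))) := by
  rw [← weyl M z hz, ← Matrix.det_transpose (Matrix.of fun i j : Fin M =>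
    (z j)^((i:ℕ)+1) - (z j)⁻¹^((i:ℕ)+1)), ← Matrix.det_mul_column]
  congr 1
  ext i j
  simp only [Matrix.of_apply, Matrix.transpose_apply]
  have hj := j.2
  have e1 : (z i)^(N - ((j:ℕ)+1)) = (z i)^N * (z i)⁻¹^((j:ℕ)+1) := by
    have h1 : (z i)^N = (z i)^(N - ((j:ℕ)+1)) * (z i)^((j:ℕ)+1) := by
      rw [← pow_add]; congr 1; omega
    rw [h1, mul_assoc, ← mul_pow, mul_inv_cancel₀ (hz i), one_pow, mul_one]
  rw [e1, pow_add]
  ring

/-- the denominator -/
theorem ddl_lst (n : ℕ) (W : ℂ) (hW : W ≠ 0) (y : Fin (2*n) → ℂ) (hy : ∀ i, y i ≠ 0) :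
    ddl (2*n+2) (lst W y) = - (W * (W^2 - 1) * (∏ i, ((W - y i) * (W * y i - 1)))) *
      (∏ i, (y i)^(2*n+1)) * ((∏ i, (y i - (y i)⁻¹)) *
        ∏ i : Fin (2*n), ∏ j ∈ Ioi i, ((y j + (y j)⁻¹) - (y i + (y i)⁻¹))) := by
  have h1 : ddl (2*n+2) (lst W y) = - Matrix.det (Matrix.of fun i j : Fin (2*n+1) =>
      ((Fin.cons W y : Fin (2*n+1) → ℂ) i)^(2*n+2 + ((j:ℕ)+1)) -
        ((Fin.cons W y : Fin (2*n+1) → ℂ) i)^(2*n+2 - ((j:ℕ)+1))) := by
    unfold ddl
    refine (det_last (2*n+1) (2*n+2) (fun j => j+1) (fun j hj => by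
      show j + 1 < 2*n+2; omega) rfl
      (fun i => (lst W y).getD i 0) (getD_lst_last W y) (by omega)).trans ?_
    congr 2
    ext i j
    simp only [Matrix.of_apply]
    rw [getD_lst W y i]
  have hz : ∀ i, (Fin.cons W y : Fin (2*n+1) → ℂ) i ≠ 0 := by
    intro i
    refine Fin.cases ?_ (fun i => ?_) i
    · simpa using hW
    · simpa using hy i
  rw [h1, det_pull (2*n+1) (2*n+2) (by omega) _ hz]
  simp only [Fin.prod_univ_succ, Fin.prod_Ioi_zero, Fin.prod_Ioi_succ, Fin.cons_zero,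
    Fin.cons_succ]
  have e2 : ∏ j : Fin (2*n), ((y j + (y j)⁻¹) - (W + W⁻¹)) =
      (∏ i, ((W - y i) * (W * y i - 1))) * (W⁻¹^(2*n) * ∏ i, (y i)⁻¹) := by
    have : ∀ j : Fin (2*n), ((y j + (y j)⁻¹) - (W + W⁻¹)) =
        (-1) * (((W - y j) * (W * y j - 1)) * (W⁻¹ * (y j)⁻¹)) := by
      intro j
      have := hy j
      field_simp
      ring
    rw [Finset.prod_congr rfl (fun j _ => this j)]
    simp only [Finset.prod_mul_distrib, Finset.prod_const, Finset.card_univ, Fintype.card_fin]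
    rw [pow_mul (-1 : ℂ) 2 n]
    ring
  have e3 : ∏ i : Fin (2*n), (y i)^(2*n+2) = (∏ i, (y i)^(2*n+1)) * ∏ i, y i := by
    rw [← Finset.prod_mul_distrib]
    exact Finset.prod_congr rfl fun i _ => by ring
  have e4 : (∏ i : Fin (2*n), y i) * (∏ i, (y i)⁻¹) = 1 := by
    rw [← Finset.prod_mul_distrib]
    exact Finset.prod_eq_one fun i _ => mul_inv_cancel₀ (hy i)
  have e5 : W^(2*n+2) * (W - W⁻¹) * W⁻¹^(2*n) = W * (W^2 - 1) := by
    have : W^(2*n) * W⁻¹^(2*n) = 1 := by rw [← mul_pow, mul_inv_cancel₀ hW, one_pow]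
    have h2 : W * W⁻¹ = 1 := mul_inv_cancel₀ hW
    calc W^(2*n+2) * (W - W⁻¹) * W⁻¹^(2*n) = (W^(2*n) * W⁻¹^(2*n)) * (W^3 - W * (W * W⁻¹)) := by ring
      _ = W * (W^2 - 1) := by rw [this, h2]; ring
  rw [e2, e3]
  linear_combination (-(∏ i, ((W - y i) * (W * y i - 1))) * (∏ i, (y i)^(2*n+1)) *
    ((∏ i, (y i - (y i)⁻¹)) *
        ∏ i : Fin (2*n), ∏ j ∈ Ioi i, ((y j + (y j)⁻¹) - (y i + (y i)⁻¹)))) *
    (e5 + (W^(2*n+2) * (W - W⁻¹) * W⁻¹^(2*n)) * e4)

/-- key formula for generic `y` -/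
theorem key (n : ℕ) (y : Fin (2*n) → ℂ) :
    ∃ c : Fin (2*n+1) → ℂ, ∀ W : ℂ, W ≠ 0 →
      Z (lst W y) * ddl (2*n+2) (lst W y) = ∑ j : Fin (2*n+1), rr (3*n+2) W j * c j := by
  have hK : mu (2*n+2-1) = 3*n+2 := by unfold mu; omega
  refine ⟨fun j => - (q^((n+1)*n) * ((-1)^(j:ℕ) *
    Matrix.det (Matrix.of fun i k : Fin (2*n) => rr (3*n+2) (y i) (j.succAbove k)))), fun W _ => ?_⟩
  have h := Z_det (n+1) (lst W y) (by rw [length_lst]; ring)
  rw [show 2*(n+1) = 2*n+2 by ring, show n+1-1 = n by omega] at h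
  rw [h]
  have h1 : dmu (2*n+2) (lst W y) = - Matrix.det (Matrix.of fun i j : Fin (2*n+1) =>
      rr (3*n+2) ((Fin.cons W y : Fin (2*n+1) → ℂ) i) j) := by
    unfold dmu
    rw [hK]
    refine (det_last (2*n+1) (3*n+2) mu (fun j hj => by unfold mu; omega) (by unfold mu; omega)
      (fun i => (lst W y).getD i 0) (getD_lst_last W y) (by omega)).trans ?_
    congr 2
    ext i j
    simp only [Matrix.of_apply]
    rw [getD_lst W y i]
    rfl
  rw [h1, Matrix.det_succ_row_zero]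
  have h2 : ∀ j : Fin (2*n+1), (Matrix.of fun i j : Fin (2*n+1) =>
      rr (3*n+2) ((Fin.cons W y : Fin (2*n+1) → ℂ) i) j).submatrix Fin.succ j.succAbove =
      Matrix.of fun i k : Fin (2*n) => rr (3*n+2) (y i) (j.succAbove k) := by
    intro j
    ext i k
    simp
  simp only [h2, Matrix.of_apply, Fin.cons_zero]
  rw [mul_neg, ← neg_mul, Finset.mul_sum]
  exact Finset.sum_congr rfl fun j _ => by ring

/-- the symmetric function `F` -/
noncomputable def FF (n : ℕ) (y : Fin (2*n) → ℂ) (W : ℂ) : ℂ :=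
  (W^2 - 1) * (∏ i, ((W - y i) * (W * y i - 1))) * Z (lst W y)

/-- three term relation for generic `y` -/
theorem FF_sum (n : ℕ) (y : Fin (2*n) → ℂ) (hy : ∀ i, y i ≠ 0) (hy2 : ∀ i, y i - (y i)⁻¹ ≠ 0)
    (hyy : ∀ i j, i < j → (y j + (y j)⁻¹) - (y i + (y i)⁻¹) ≠ 0) (W : ℂ) (hW : W ≠ 0) :
    FF n y W + q^2 * FF n y (q*W) + q * FF n y (q^2*W) = 0 := by
  obtain ⟨c, hc⟩ := key n y
  have hq0 := q_ne_zero
  have hs : ∑ j : Fin (2*n+1), (rr (3*n+2) W j + q * rr (3*n+2) (q*W) j +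
      q^2 * rr (3*n+2) (q^2*W) j) * c j = 0 := by
    refine Finset.sum_eq_zero fun j _ => ?_
    rw [rr_sum n W j (by have := j.2; unfold mu; omega), zero_mul]
  have hs' : ∑ j : Fin (2*n+1), rr (3*n+2) W j * c j +
      q * ∑ j : Fin (2*n+1), rr (3*n+2) (q*W) j * c j +
      q^2 * ∑ j : Fin (2*n+1), rr (3*n+2) (q^2*W) j * c j = 0 := by
    rw [← hs, Finset.mul_sum, Finset.mul_sum, ← Finset.sum_add_distrib, ← Finset.sum_add_distrib]
    exact Finset.sum_congr rfl fun j _ => by ring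
  have h1 : q * W ≠ 0 := mul_ne_zero hq0 hW
  have h2 : q^2 * W ≠ 0 := mul_ne_zero (pow_ne_zero _ hq0) hW
  rw [← hc W hW, ← hc (q*W) h1, ← hc (q^2*W) h2, ddl_lst n W hW y hy, ddl_lst n (q*W) h1 y hy,
    ddl_lst n (q^2*W) h2 y hy] at hs'
  set κ : ℂ := (∏ i, (y i)^(2*n+1)) * ((∏ i, (y i - (y i)⁻¹)) *
        ∏ i : Fin (2*n), ∏ j ∈ Ioi i, ((y j + (y j)⁻¹) - (y i + (y i)⁻¹))) with hκ
  have hκ0 : κ ≠ 0 := by
    rw [hκ]
    refine mul_ne_zero (Finset.prod_ne_zero_iff.2 fun i _ => pow_ne_zero _ (hy i))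
      (mul_ne_zero (Finset.prod_ne_zero_iff.2 fun i _ => hy2 i)
        (Finset.prod_ne_zero_iff.2 fun i _ => Finset.prod_ne_zero_iff.2 fun j hj => ?_))
    exact hyy i j (by simpa using hj)
  have hfin : κ * W * (FF n y W + q^2 * FF n y (q*W) + q^4 * FF n y (q^2*W)) = 0 := by
    unfold FF
    rw [hκ]
    linear_combination -hs'
  have hq3 := q_cube
  have e4 : q^4 = q := by linear_combination q * hq3
  rw [e4] at hfin
  exact (mul_eq_zero.1 hfin).resolve_left (mul_ne_zero hκ0 hW)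

theorem FF_cont (n : ℕ) (W : ℂ) :
    ContinuousAt (fun t : ℂ => FF n (fun i => t^((i:ℕ)+1)) W) 1 := by
  unfold FF
  refine ContinuousAt.mul (ContinuousAt.mul continuousAt_const ?_) ?_
  · exact (continuous_finsetProd _ fun i _ => by fun_prop).continuousAt
  · have h0 : PD (1 + (2*n+1)) (1 + (2*n+1) - 2) Z := Z_pd _ ⟨n+1, by ring⟩
    have h1 : PD (2*n+1) _ (fun l => Z ([W] ++ l)) := PD.sliceLeft [W] h0
    have h2 : PD (2*n) _ (fun l => Z ([W] ++ (l ++ [0]))) := PD.sliceRight (M := 2*n) [0] h1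
    exact h2.cont (fun i t => t^((i:ℕ)+1)) 1 (fun i => (continuous_pow _).continuousAt)

theorem FF_one (n : ℕ) (W : ℂ) (hW : W ≠ 0) :
    FF n (fun _ => 1) W + q^2 * FF n (fun _ => 1) (q*W) + q * FF n (fun _ => 1) (q^2*W) = 0 := by
  have hc : ContinuousAt (fun t : ℂ => FF n (fun i => t^((i:ℕ)+1)) W +
      q^2 * FF n (fun i => t^((i:ℕ)+1)) (q*W) + q * FF n (fun i => t^((i:ℕ)+1)) (q^2*W)) 1 :=
    ((FF_cont n W).add (continuousAt_const.mul (FF_cont n (q*W)))).add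
      (continuousAt_const.mul (FF_cont n (q^2*W)))
  have hr : Filter.Tendsto (fun s : ℝ => (s : ℂ)) (nhdsWithin 1 (Set.Ioi 1)) (nhds 1) := by
    have : Filter.Tendsto (fun s : ℝ => (s : ℂ)) (nhds 1) (nhds ((1:ℝ) : ℂ)) :=
      Complex.continuous_ofReal.continuousAt
    rw [Complex.ofReal_one] at this
    exact this.mono_left nhdsWithin_le_nhds
  have h1 := hc.tendsto.comp hr
  have h2 : ∀ᶠ s : ℝ in nhdsWithin 1 (Set.Ioi 1), ((fun t : ℂ => FF n (fun i => t^((i:ℕ)+1)) W +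
      q^2 * FF n (fun i => t^((i:ℕ)+1)) (q*W) + q * FF n (fun i => t^((i:ℕ)+1)) (q^2*W)) ∘
      (fun s : ℝ => (s:ℂ))) s = 0 := by
    filter_upwards [self_mem_nhdsWithin] with s hs
    have hs1 : (1:ℝ) < s := hs
    have hs0 : (0:ℝ) < s := by linarith
    have hp : ∀ k : ℕ, (1:ℝ) < s^(k+1) := fun k => one_lt_pow₀ hs1 (by omega)
    refine FF_sum n _ (fun i => ?_) (fun i => ?_) (fun i j hij => ?_) W hW
    · show ((s:ℂ))^((i:ℕ)+1) ≠ 0
      exact pow_ne_zero _ (by exact_mod_cast hs0.ne')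
    · have h3 : (s^((i:ℕ)+1) - (s^((i:ℕ)+1))⁻¹ : ℝ) ≠ 0 := by
        have h4 := hp i
        have h5 : (s^((i:ℕ)+1))⁻¹ < 1 := inv_lt_one_of_one_lt₀ h4
        linarith
      show ((s:ℂ))^((i:ℕ)+1) - (((s:ℂ))^((i:ℕ)+1))⁻¹ ≠ 0
      exact_mod_cast h3
    · have h3 : ((s^((j:ℕ)+1) + (s^((j:ℕ)+1))⁻¹) - (s^((i:ℕ)+1) + (s^((i:ℕ)+1))⁻¹) : ℝ) ≠ 0 := by
        have h4 := hp i
        have h5 := hp j
        have h6 : s^((i:ℕ)+1) < s^((j:ℕ)+1) :=
          pow_lt_pow_right₀ hs1 (by have : (i:ℕ) < j := hij; omega)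
        set u := s^((i:ℕ)+1)
        set v := s^((j:ℕ)+1)
        have hu : 0 < u := by linarith
        have hv : 0 < v := by linarith
        have : (v + v⁻¹) - (u + u⁻¹) = (v - u) * (u * v - 1) / (u * v) := by
          field_simp
          ring
        rw [this]
        have h7 : 1 < u * v := by nlinarith
        have h8 : 0 < (v - u) * (u * v - 1) / (u * v) :=
          div_pos (mul_pos (by linarith) (by linarith)) (by positivity)
        exact h8.ne'
      show (((s:ℂ))^((j:ℕ)+1) + (((s:ℂ))^((j:ℕ)+1))⁻¹) -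
        (((s:ℂ))^((i:ℕ)+1) + (((s:ℂ))^((i:ℕ)+1))⁻¹) ≠ 0
      exact_mod_cast h3
  have h3 := tendsto_nhds_unique_of_eventuallyEq h1 (tendsto_const_nhds (x := (0:ℂ))) h2
  simpa using h3

open Polynomial in
theorem total (a b n : ℕ) (hab : a + b = 2*n) (ha : Odd a) (hb : Odd b) :
    ∃ T : ℂ[X], (∀ W : ℂ, T.eval W = Z (List.replicate a 1 ++ W :: (List.replicate b 1 ++ [0])) *
        Z (List.replicate a 1 ++ [0]) * Z (List.replicate b 1 ++ [0])) ∧
      T.natDegree ≤ 2*n ∧ reflect (2*n) T = T ∧ T.coeff (2*n) ≠ 0 ∧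
      ∀ k, k % 3 = 1 → (Pool.Agent.H136R2.Cardy.pp n T).coeff k = 0 := by
  have hq0 := q_ne_zero
  have hpd : PD (2*n+2) (2*n+2-2) Z := Z_pd _ ⟨n+1, by ring⟩
  obtain ⟨P, hPd, hP⟩ := hpd.univ (List.replicate a 1) (List.replicate b 1 ++ [0])
    (by simp; omega)
  have hones : ∀ m : ℕ, Odd m → Z (List.replicate m 1 ++ [0]) ≠ 0 := by
    rintro m ⟨k, rfl⟩
    rw [Z_ones_zero]
    exact mul_ne_zero (pow_ne_zero _ hq0) (by exact_mod_cast (chi_pos (2*k+1)).ne')
  set c : ℂ := Z (List.replicate a 1 ++ [0]) * Z (List.replicate b 1 ++ [0]) with hc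
  have hc0 : c ≠ 0 := mul_ne_zero (hones a ha) (hones b hb)
  -- permutation
  have hperm : ∀ W : ℂ, P.eval W = Z (lst W (fun _ : Fin (2*n) => 1)) := by
    intro W
    rw [← hP W]
    refine Z_perm (by simp; rw [show a + (b + 1 + 1) = 2*(n+1) by omega]; exact even_two_mul _) ?_
    refine List.perm_middle.trans ?_
    unfold lst
    refine List.Perm.cons _ ?_
    rw [List.ofFn_const, ← List.append_assoc, List.replicate_append_replicate, hab]
  have hinv : ∀ W : ℂ, W ≠ 0 → P.eval W = W^(2*n) * P.eval W⁻¹ := by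
    intro W hW
    rw [hperm, hperm]
    unfold lst
    rw [Z_inv W _ hW (by simp)]
    congr 2
    simp
  have hrefl : reflect (2*n) P = P := by
    refine Polynomial.eq_of_infinite_eval_eq _ _ ?_
    refine Set.Infinite.mono (s := {0}ᶜ) ?_ (Set.Finite.infinite_compl (Set.finite_singleton _))
    intro x hx
    have hx0 : x ≠ 0 := hx
    have : Invertible x⁻¹ := invertibleOfNonzero (inv_ne_zero hx0)
    have h := Polynomial.eval₂_reflect_mul_pow (RingHom.id ℂ) x⁻¹ (2*n) P (by simpa using hPd)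
    have h' : ⅟(x⁻¹) = x := by rw [invOf_eq_inv, inv_inv]
    rw [h'] at h
    have h2 := hinv x hx0
    show (reflect (2*n) P).eval x = P.eval x
    have h3 : (reflect (2*n) P).eval x * x⁻¹^(2*n) = P.eval x⁻¹ := h
    rw [h2, ← h3]
    have h4 : x^(2*n) * x⁻¹^(2*n) = 1 := by rw [← mul_pow, mul_inv_cancel₀ hx0, one_pow]
    linear_combination (-(reflect (2*n) P).eval x) * h4
  have hcoef : P.coeff (2*n) ≠ 0 := by
    have h1 : P.coeff (2*n) = P.coeff 0 := by
      conv_lhs => rw [← hrefl, coeff_reflect, revAt_le le_rfl, Nat.sub_self]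
    rw [h1, coeff_zero_eq_eval_zero, hperm]
    have h2 : Z (lst 0 (fun _ : Fin (2*n) => (1:ℂ))) =
        Z ([] ++ 0 :: (q^2 * 0) :: List.replicate (2*n) 1) := by
      refine Z_perm (by rw [length_lst]; exact ⟨n+1, by ring⟩) ?_
      unfold lst
      rw [List.nil_append, mul_zero, List.ofFn_const]
      refine List.Perm.cons _ ?_
      exact List.perm_append_comm
    rw [h2, Z_rec [] _ 0 (by simp), List.nil_append, Z_ones]
    refine mul_ne_zero ?_ (mul_ne_zero (pow_ne_zero _ hq0) (by exact_mod_cast (chi_pos (2*n)).ne'))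
    unfold fac
    rw [List.map_replicate, List.prod_replicate]
    refine pow_ne_zero _ ?_
    have : ((0:ℂ) - q^2 * 1) * (0 * 1 - q^2) = q^4 := by ring
    rw [this]
    exact pow_ne_zero _ hq0
  refine ⟨C c * P, fun W => ?_, ?_, ?_, ?_, ?_⟩
  · rw [eval_mul, eval_C, ← hP, hc]; ring
  · exact (natDegree_C_mul_le _ _).trans (by simpa using hPd)
  · rw [reflect_C_mul, hrefl]
  · rw [coeff_C_mul]; exact mul_ne_zero hc0 hcoef
  · intro k hk
    set G := Pool.Agent.H136R2.Cardy.pp n (C c * P) with hG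
    have hGe : ∀ W : ℂ, G.eval W = c * FF n (fun _ => 1) W := by
      intro W
      rw [hG]
      unfold Pool.Agent.H136R2.Cardy.pp FF
      rw [← hperm W]
      simp only [eval_mul, eval_add, eval_sub, eval_X, eval_one, eval_pow, eval_C,
        Finset.prod_const, Finset.card_univ, Fintype.card_fin]
      rw [mul_one, ← pow_two, ← pow_mul]
      ring
    have hsum : G + C (q^2) * G.comp (C q * X) + C q * G.comp (C (q^2) * X) = 0 := by
      refine Polynomial.eq_zero_of_infinite_isRoot _ ?_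
      refine Set.Infinite.mono (s := {0}ᶜ) ?_ (Set.Finite.infinite_compl (Set.finite_singleton _))
      intro x hx
      have hx0 : x ≠ 0 := hx
      show (G + C (q^2) * G.comp (C q * X) + C q * G.comp (C (q^2) * X)).eval x = 0
      simp only [eval_add, eval_mul, eval_comp, eval_C, eval_X]
      rw [hGe, hGe, hGe]
      linear_combination c * FF_one n x hx0
    have h1 := congrArg (fun p => p.coeff k) hsum
    simp only [coeff_add, coeff_C_mul, comp_C_mul_X_coeff, coeff_zero] at h1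
    have hqk : q^k = q := by
      conv_lhs => rw [← Nat.div_add_mod k 3, hk, pow_add, pow_mul, q_cube, one_pow, one_mul, pow_one]
    rw [← pow_mul, mul_comm 2 k, pow_mul, hqk] at h1
    have hq3 := q_cube
    have h3 : (3:ℂ) * G.coeff k = 0 := by linear_combination h1 - 2 * G.coeff k * hq3
    exact (mul_eq_zero.1 h3).resolve_left (by norm_num)

theorem ones_ne (m : ℕ) (h : Odd m) : Z (List.replicate m 1 ++ [0]) ≠ 0 := by
  obtain ⟨k, rfl⟩ := h
  rw [Z_ones_zero]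
  exact mul_ne_zero (pow_ne_zero _ q_ne_zero) (by exact_mod_cast (chi_pos (2*k+1)).ne')

/-- block T: the total mass at the homogeneous point is not zero. -/
theorem total_ne (a b : ℕ) (ha : Odd a) (hb : Odd b) :
    Z (List.replicate a 1 ++ 1 :: (List.replicate b 1 ++ [0])) *
        Z (List.replicate a 1 ++ [0]) * Z (List.replicate b 1 ++ [0]) ≠ 0 := by
  refine mul_ne_zero (mul_ne_zero ?_ (ones_ne a ha)) (ones_ne b hb)
  have h : List.replicate a (1:ℂ) ++ 1 :: (List.replicate b 1 ++ [0]) =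
      List.replicate (a + (b + 1)) 1 ++ [0] := by
    rw [← List.replicate_append_replicate, List.append_assoc, List.replicate_succ, List.cons_append]
  rw [h]
  exact ones_ne _ (by rw [← add_assoc]; exact (ha.add_odd hb).add_one)

end Pool.Agent.H342C
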